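import Pool.Agent.MVK.Stmts

/-!
# MVK, row KB2 (helper65): additional letters besides a main block
-/

set_option autoImplicit false

namespace Pool.Agent.MVK.H65

open Pool.Agent.Helper14_MV Pool.Agent.Helper2_MV Pool.Agent.MVD Pool.Agent.MVK

namespace Kb2Row

theorem bw_cons (r : ℕ) (R : List ℕ) (B : ℕ → List ℕ) :
    Bw (r :: R) B = B r ++ [3 * r + 2] ++ Bw R B := by
  unfold Bw
  rw [List.flatMap_cons]

theorem bw_filter (p : ℕ → Bool) (hp : ∀ r, p (3 * r + 2) = true) (R : List ℕ)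
    (B : ℕ → List ℕ) : (Bw R B).filter p = Bw R (fun r => (B r).filter p) := by
  induction R with
  | nil => rfl
  | cons r R ih =>
    have h1 : [3 * r + 2].filter p = [3 * r + 2] := by
      rw [List.filter_cons_of_pos (hp r)]
      rfl
    rw [bw_cons, bw_cons, List.filter_append, List.filter_append, ih, h1]

theorem bw_congr {R : List ℕ} {B C : ℕ → List ℕ} (h : ∀ r, B r = C r) : Bw R B = Bw R C := by
  have h1 : B = C := funext h
  rw [h1]

/-- two adjacent letters `0` -/
def Sq (l : List ℕ) : Prop := ∃ p q, l = p ++ 0 :: 0 :: q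

theorem sq_left {l : List ℕ} (h : Sq l) (k : List ℕ) : Sq (l ++ k) := by
  obtain ⟨p, q, rfl⟩ := h
  exact ⟨p, q ++ k, by simp⟩

theorem sq_right {l : List ℕ} (h : Sq l) (k : List ℕ) : Sq (k ++ l) := by
  obtain ⟨p, q, rfl⟩ := h
  exact ⟨k ++ p, q, by simp⟩

theorem sq_rep {n k : ℕ} (hn : 1 ≤ n) (hk : 1 ≤ k) :
    Sq (List.replicate n 0 ++ List.replicate k 0) := by
  obtain ⟨n, rfl⟩ : ∃ j, n = j + 1 := ⟨n - 1, by omega⟩
  obtain ⟨k, rfl⟩ : ∃ j, k = j + 1 := ⟨k - 1, by omega⟩
  refine ⟨[], List.replicate (n + k) 0, ?_⟩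
  rw [← List.replicate_add, show n + 1 + (k + 1) = (n + k) + 1 + 1 by omega,
    List.replicate_succ, List.replicate_succ]
  rfl

theorem sq_bw {X : ℕ → List ℕ} {r : ℕ} (hX : Sq (X r)) : ∀ R : List ℕ, r ∈ R → Sq (Bw R X) := by
  intro R
  induction R with
  | nil => intro h; exact absurd h List.not_mem_nil
  | cons s R ih =>
    intro h
    rw [bw_cons]
    rcases List.mem_cons.1 h with h1 | h1
    · subst h1
      exact sq_left (sq_left hX _) _
    · exact sq_right (ih h1) _

/-- the blocks of `Wm` -/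
def BB (L : List ℕ) (r : ℕ) : List ℕ := if r = 0 then L else [3 * (r - 1) + 1]

/-- the blocks of `Wg` -/
def GB (a b : ℕ → ℕ) (M : List ℕ) (r : ℕ) : List ℕ := if r = 0 then M else
  List.replicate (a r) 0 ++ ([3 * (r - 1) + 1] ++ List.replicate (b r) 0)

/-- the prefixes -/
def UB (a : ℕ → ℕ) (r : ℕ) : List ℕ := if r = 0 then [] else List.replicate (a r) 0

/-- the prefix of the main block -/
def U0 (r : ℕ) : List ℕ := if r = 0 then [0] else []

theorem fil_zs (D : List ℕ) : (zs D).filter (fun c => decide (c ≠ 0)) = zs D := by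
  rw [List.filter_eq_self]
  intro c hc
  unfold zs at hc
  obtain ⟨e, -, rfl⟩ := List.mem_map.1 hc
  simp

theorem fil_rep (n : ℕ) : (List.replicate n 0).filter (fun c : ℕ => decide (c ≠ 0)) = [] := by
  rw [List.filter_eq_nil_iff]
  intro c hc
  rw [List.eq_of_mem_replicate hc]
  simp

theorem fil_BB (D : List ℕ) (r : ℕ) :
    (BB (0 :: (zs D ++ [0])) r).filter (fun c => decide (c ≠ 0)) = BB (zs D) r := by
  unfold BB
  by_cases hr : r = 0
  · rw [if_pos hr, if_pos hr]
    have h1 : (0 :: (zs D ++ [0]) : List ℕ) = List.replicate 1 0 ++ (zs D ++ List.replicate 1 0) :=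
      rfl
    rw [h1, List.filter_append, List.filter_append, fil_rep, fil_zs, List.nil_append,
      List.append_nil]
  · rw [if_neg hr, if_neg hr]
    simp

theorem fil_GB (a b : ℕ → ℕ) (D : List ℕ) (r : ℕ) :
    (GB a b (0 :: (zs D ++ [0])) r).filter (fun c => decide (c ≠ 0)) = BB (zs D) r := by
  unfold GB
  by_cases hr : r = 0
  · rw [if_pos hr]
    have h1 := fil_BB D r
    unfold BB at h1
    rw [if_pos hr, if_pos hr] at h1
    rw [h1]
    unfold BB
    rw [if_pos hr]
  · rw [if_neg hr, List.filter_append, List.filter_append, fil_rep, fil_rep, List.nil_append,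
      List.append_nil]
    unfold BB
    rw [if_neg hr]
    simp

theorem sfr_zs (D : List ℕ) : SFr (zs D) := by
  intro c hc
  unfold zs at hc
  obtain ⟨e, -, rfl⟩ := List.mem_map.1 hc
  omega

theorem sfr_rep (n : ℕ) : SFr (List.replicate n 0) := by
  intro c hc
  rw [List.eq_of_mem_replicate hc]
  omega

theorem sfr_app {l k : List ℕ} (hl : SFr l) (hk : SFr k) : SFr (l ++ k) := by
  intro c hc
  rcases List.mem_append.1 hc with h | h
  · exact hl c h
  · exact hk c h

theorem sfr_one (e : ℕ) : SFr [3 * e + 1] := by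
  intro c hc
  rw [List.mem_singleton.1 hc]
  omega

theorem sfr_main (D : List ℕ) : SFr (0 :: (zs D ++ [0])) := by
  have h1 : (0 :: (zs D ++ [0]) : List ℕ) = List.replicate 1 0 ++ (zs D ++ List.replicate 1 0) :=
    rfl
  rw [h1]
  exact sfr_app (sfr_rep 1) (sfr_app (sfr_zs D) (sfr_rep 1))

theorem sfr_BB {L : List ℕ} (hL : SFr L) (r : ℕ) : SFr (BB L r) := by
  unfold BB
  by_cases hr : r = 0
  · rw [if_pos hr]
    exact hL
  · rw [if_neg hr]
    exact sfr_one _

theorem sfr_GB (a b : ℕ → ℕ) {L : List ℕ} (hL : SFr L) (r : ℕ) : SFr (GB a b L r) := by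
  unfold GB
  by_cases hr : r = 0
  · rw [if_pos hr]
    exact hL
  · rw [if_neg hr]
    exact sfr_app (sfr_rep _) (sfr_app (sfr_one _) (sfr_rep _))

theorem nd_Rl {P Q : List ℕ} {m : ℕ} (h : (P ++ Q).Perm (List.range m)) : (Rl P Q).Nodup := by
  have h1 : (Rl P Q).Perm (0 :: (P ++ Q).map (fun e => e + 1)) := by
    unfold Rl
    rw [List.map_append]
    exact List.perm_middle
  rw [h1.nodup_iff, List.nodup_cons]
  constructor
  · intro h2
    obtain ⟨e, -, he⟩ := List.mem_map.1 h2
    omega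
  · exact List.Nodup.map (fun x y hxy => Nat.succ_injective hxy)
      (h.nodup_iff.2 List.nodup_range)

theorem mem_Rl {P Q : List ℕ} {m e : ℕ} (h : (P ++ Q).Perm (List.range m)) (he : e < m) :
    e + 1 ∈ Rl P Q := by
  have h1 : e ∈ P ++ Q := h.mem_iff.2 (List.mem_range.2 he)
  unfold Rl
  rcases List.mem_append.1 h1 with h2 | h2
  · exact List.mem_append_left _ (List.mem_map.2 ⟨e, h2, rfl⟩)
  · exact List.mem_append_right _ (List.mem_cons_of_mem _ (List.mem_map.2 ⟨e, h2, rfl⟩))

end Kb2Row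

open Kb2Row

theorem kb2 (abs : AbsStmt) (ibw : IbwStmt) : Kb2Stmt := by
  intro β hQ P Q D' m a b f hPQ hD h hf
  obtain ⟨abs1, abs2⟩ := abs β
  have hR := nd_Rl hPQ
  have h0 : RR β (Bw (Rl P Q) (BB (0 :: (zs (List.range m) ++ [0]))) ++ [])
      (Bw (Rl P Q) (GB a b (0 :: (zs D' ++ [0]))) ++ List.replicate f 0) := by
    rw [List.append_nil]
    exact h
  have h1 : RR β (Bw (Rl P Q) (BB (zs (List.range m))) ++ [])
      (Bw (Rl P Q) (BB (zs D')) ++ []) := by
    have h2 := h0.filter (fun c => decide (c ≠ 0))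
    rw [List.filter_append, List.filter_append, bw_filter _ (by intro r; simp),
      bw_filter _ (by intro r; simp), fil_rep, bw_congr (fil_BB _), bw_congr (fil_GB a b _)] at h2
    exact h2
  have h2 : RR β (Bw (Rl P Q) (BB (0 :: (zs (List.range m) ++ [0]))) ++ [])
      (Bw (Rl P Q) (BB (0 :: (zs D' ++ [0]))) ++ []) := by
    have h3 := ibw β (Rl P Q) (BB (zs (List.range m))) (BB (zs D')) U0 U0 [] [] [] hR
      (fun r _ => sfr_BB (sfr_zs _) r) (fun r _ => sfr_BB (sfr_zs _) r) (sfr_rep 0) (sfr_rep 0) h1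
    have h4 : ∀ D : List ℕ, ∀ r, U0 r ++ (BB (zs D) r ++ U0 r) = BB (0 :: (zs D ++ [0])) r := by
      intro D r
      unfold U0 BB
      by_cases hr : r = 0
      · rw [if_pos hr, if_pos hr, if_pos hr]
        rfl
      · rw [if_neg hr, if_neg hr, if_neg hr]
        rfl
    rw [bw_congr (h4 _), bw_congr (h4 _)] at h3
    exact h3
  have h3 := ibw β (Rl P Q) (BB (0 :: (zs (List.range m) ++ [0]))) (BB (0 :: (zs D' ++ [0])))
    (UB a) (UB b) [] [] (List.replicate f 0) hR
    (fun r _ => sfr_BB (sfr_main _) r) (fun r _ => sfr_BB (sfr_main _) r) (sfr_rep 0) (sfr_rep 0) h2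
  have h4 := ibw β (Rl P Q) (BB (0 :: (zs (List.range m) ++ [0])))
    (GB a b (0 :: (zs D' ++ [0]))) (UB a) (UB b) [] (List.replicate f 0) (List.replicate f 0) hR
    (fun r _ => sfr_BB (sfr_main _) r) (fun r _ => sfr_GB a b (sfr_main _) r) (sfr_rep 0)
    (sfr_rep f) h0
  have h5 : ∀ r, UB a r ++ (BB (0 :: (zs D' ++ [0])) r ++ UB b r) =
      GB a b (0 :: (zs D' ++ [0])) r := by
    intro r
    unfold UB BB GB
    by_cases hr : r = 0
    · rw [if_pos hr, if_pos hr, if_pos hr, if_pos hr]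
      simp
    · rw [if_neg hr, if_neg hr, if_neg hr, if_neg hr]
  rw [bw_congr h5, List.append_nil] at h3
  rw [List.append_nil] at h4
  have h6 : RR β (bw P Q m) (Bw (Rl P Q) (fun r => UB a r ++
      (GB a b (0 :: (zs D' ++ [0])) r ++ UB b r)) ++
        (List.replicate f 0 ++ List.replicate f 0)) := by
    unfold RR at h h3 h4 ⊢
    exact β.trans h (β.trans (β.symm h3) h4)
  have hS : Sq (Bw (Rl P Q) (fun r => UB a r ++
      (GB a b (0 :: (zs D' ++ [0])) r ++ UB b r)) ++
        (List.replicate f 0 ++ List.replicate f 0)) := by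
    rcases hf with hf | ⟨e, he, hab⟩
    · exact sq_right (sq_rep hf hf) _
    · refine sq_left (sq_bw (r := e + 1) ?_ _ (mem_Rl hPQ he)) _
      unfold UB GB
      rw [if_neg (Nat.succ_ne_zero e), if_neg (Nat.succ_ne_zero e), if_neg (Nat.succ_ne_zero e)]
      rcases hab with hab | hab
      · have h7 := sq_left (sq_left (sq_rep hab hab)
          ([3 * (e + 1 - 1) + 1] ++ List.replicate (b (e + 1)) 0)) (List.replicate (b (e + 1)) 0)
        rw [List.append_assoc, List.append_assoc] at h7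
        rw [List.append_assoc]
        exact h7
      · have h7 := sq_right (sq_right (sq_right (sq_rep hab hab) [3 * (e + 1 - 1) + 1])
          (List.replicate (a (e + 1)) 0)) (List.replicate (a (e + 1)) 0)
        rw [List.append_assoc, List.append_assoc]
        exact h7
  obtain ⟨p, q, hpq⟩ := hS
  rw [hpq] at h6
  exact abs2 0 _ _ h6 (abs1 hQ p q 0)

end Pool.Agent.MVK.H65
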